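import Pool.Agent.W2helper94.CY.H
import Pool.Agent.W2helper94.CY.Gens

set_option autoImplicit false

/-!
# MP_bce407: embedding dimension four

By Bresinsky's theorem (1975) the symmetric numerical semigroups of embedding dimension four which are
not complete intersections are exactly the semigroups `⟨n1, n2, n3, n4⟩` given by eight positive
integers `a_ij` as in the structure `Par` (relations `x1^a1 = x3^a13 x4^a14`, `x2^a2 = x1^a21 x4^a24`,
`x3^a3 = x1^a31 x2^a32`, `x4^a4 = x2^a42 x3^a43`, `x2^a32 x4^a14 = x1^a21 x3^a43`).

**Theorem.**  Such a semigroup has embedding dimension four (its minimal generators are the four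
different numbers `n1, n2, n3, n4`), and its semigroup polynomial is never a product of cyclotomic
polynomials.

As cyclotomic semigroups are symmetric, this is the case of embedding dimension four of the question:
a cyclotomic numerical semigroup with (at most) four generators is a complete intersection.

Proof.  The semigroup polynomial times `∏ (1 - X ^ n_i) / (1 - X)` is
`K = 1 - ∑ X ^ m_i + ∑ X ^ (c - m_i) - X ^ c`, where `m_1 ≤ … ≤ m_5` are the degrees of the five
relations and `∑ m_i = 2 c`.  If it is a product of cyclotomic polynomials, then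
`K = ∏ (1 - X ^ d) ^ e_d`, and an inequality between sines shows that `K` has no zero which is a root
of unity of order at least `c`, so `e_d = 0` for `d ≥ c`.
* If `2 m_4 < c`, then a comparison of coefficients gives `e_d < 0` for `d = c - m_4 > c / 2`; but then
  the multiplicity `∑_k e_(k d) = e_d` of the primitive `d`-th roots of unity is negative.
* If `2 m_4 ≥ c`, then `m_4` and `m_5` are, up to the cyclic symmetry, `a1 n1` and `a3 n3`.  A second
  inequality between sines shows that `K` has no zero of order at least `m_4`, so `e_d = 0` for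
  `d ≥ m_4`.  Below `m_4` all exponents of `K`, hence all `d` with `e_d ≠ 0`, are in `⟨n2, n4⟩`, which
  contains no multiple of `n1` smaller than `a1 n1`.  So the multiplicity `∑_k e_(k n1)` of the primitive
  `n1`-th roots of unity is `0`, but they are zeros of `K`.
-/

open Polynomial

namespace Pool.Agent.Results.MP_bce407_al.EmbeddingDimensionFour

open Pool.Agent.W2helper94.CY

/-- **No symmetric numerical semigroup of Bresinsky's type (embedding dimension four) is cyclotomic.** -/
theorem result (p : Par) (hg : Nat.gcd (Nat.gcd p.n1 p.n2) (Nat.gcd p.n3 p.n4) = 1) :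
    {x : ℕ | x ∈ p.S ∧ x ≠ 0 ∧ ∀ a ∈ p.S, ∀ b ∈ p.S, a + b = x → a = 0 ∨ b = 0} =
        {p.n1, p.n2, p.n3, p.n4} ∧
      ({p.n1, p.n2, p.n3, p.n4} : Set ℕ).ncard = 4 ∧
      ∃ hS : ((p.S : Set ℕ)ᶜ).Finite,
        ¬ ∃ mset : Multiset ℕ, (1 - (1 - X) * ∑ n ∈ hS.toFinset, X ^ n : ℤ[X]) =
          (mset.map fun k => cyclotomic k ℤ).prod :=
  ⟨min_gens p hg, ncard_gens p hg, Pool.Agent.W2helper53.CY.cofinite p hg,
    main_full p hg (Pool.Agent.W2helper53.CY.cofinite p hg)⟩

end Pool.Agent.Results.MP_bce407_al.EmbeddingDimensionFour
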